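import Pool.Agent.H891R3.Kag.Stmts

set_option autoImplicit false

namespace Pool.Agent.H891R3.Kag

open Pool.Agent.H411R2.WSK

/-- consistency of the bits at one vertex -/
def cons (a b p q r : Fin 3) (u v w : Bool) : Bool :=
  (a != b) && (p != q) && (q != r) && (p != r) &&
  (!u || (p == a || p == b)) && (!v || (q == a || q == b)) && (!w || (r == a || r == b)) &&
  (!(u && (q == a || q == b)) || v) && (!(u && (r == a || r == b)) || w) &&
  (!(v && (p == a || p == b)) || u) && (!(v && (r == a || r == b)) || w) &&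
  (!(w && (p == a || p == b)) || u) && (!(w && (q == a || q == b)) || v)

theorem localInv0 : ∀ (a b p q r : Fin 3) (u v w : Bool), cons a b p q r u v w = true →
    neg (if u then Equiv.swap a b p else p) (if v then Equiv.swap a b q else q) =
      neg p q + ((if (u = true ∧ p = a) then (1 : ZMod 2) else 0) +
        (if (v = true ∧ q = a) then (1 : ZMod 2) else 0) +
        (if (w = true ∧ r = a) then (1 : ZMod 2) else 0)) := by
  decide +kernel

/-- The pointwise effect of a swap at one vertex with edge colours `p, q, r` and bits `u, v, w`. -/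
theorem localInv (a b p q r : Fin 3) (u v w : Bool) (h0 : a ≠ b) (h1 : p ≠ q) (h2 : q ≠ r)
    (h3 : p ≠ r)
    (k1 : u = true → p = a ∨ p = b) (k2 : v = true → q = a ∨ q = b) (k3 : w = true → r = a ∨ r = b)
    (m1 : u = true → (q = a ∨ q = b) → v = true) (m2 : u = true → (r = a ∨ r = b) → w = true)
    (m3 : v = true → (p = a ∨ p = b) → u = true) (m4 : v = true → (r = a ∨ r = b) → w = true)
    (m5 : w = true → (p = a ∨ p = b) → u = true) (m6 : w = true → (q = a ∨ q = b) → v = true) :
    neg (if u then Equiv.swap a b p else p) (if v then Equiv.swap a b q else q) =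
      neg p q + ((if (u = true ∧ p = a) then (1 : ZMod 2) else 0) +
        (if (v = true ∧ q = a) then (1 : ZMod 2) else 0) +
        (if (w = true ∧ r = a) then (1 : ZMod 2) else 0)) := by
  apply localInv0
  simp only [cons, Bool.and_eq_true, Bool.or_eq_true, Bool.not_eq_true', bne_iff_ne, ne_eq,
    beq_iff_eq, Bool.and_eq_false_imp, Bool.or_eq_false_iff]
  cases u <;> cases v <;> cases w <;> simp_all

theorem taskInv : TaskInv := by
  classical
  intro n _ e e' hg hs
  obtain ⟨a, b, hab, U, h1, h2, h3, h4, h5⟩ := hs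
  have d0 : ∀ x : Pt n, x + dd n 0 = x := by intro x; simp [dd]
  have d1 : ∀ x : Pt n, x + dd n 1 = x + (1, 0) := by intro x; simp [dd]
  have d2 : ∀ x : Pt n, x + dd n 2 = x + (0, 1) := by intro x; simp [dd]
  have he' : ∀ t x, e' t x = if decide (U t x) then Equiv.swap a b (e t x) else e t x := by
    intro t x
    by_cases h : U t x
    · simp [h, h4 t x h]
    · simp [h, h5 t x h]
  -- the indicator
  let χ : Fin 3 → Pt n → ZMod 2 := fun t x =>
    if (decide (U t x) = true ∧ e t x = a) then (1 : ZMod 2) else 0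
  have hA : ∀ x, neg (e' 0 x) (e' 1 x) = neg (e 0 x) (e 1 x) + (χ 0 x + χ 1 x + χ 2 x) := by
    intro x
    rw [he', he']
    refine localInv a b (e 0 x) (e 1 x) (e 2 x) (decide (U 0 x)) (decide (U 1 x))
      (decide (U 2 x)) hab (hg.1 x).1 (hg.1 x).2.1 (hg.1 x).2.2 ?_ ?_ ?_ ?_ ?_ ?_ ?_ ?_ ?_ <;>
      simp only [decide_eq_true_eq]
    · exact h1 0 x
    · exact h1 1 x
    · exact h1 2 x
    · exact h2 x 0 1
    · exact h2 x 0 2
    · exact h2 x 1 0
    · exact h2 x 1 2
    · exact h2 x 2 0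
    · exact h2 x 2 1
  have hB : ∀ x, neg (e' 0 x) (e' 1 (x + (1, 0))) = neg (e 0 x) (e 1 (x + (1, 0))) +
      (χ 0 x + χ 1 (x + (1, 0)) + χ 2 (x + (0, 1))) := by
    intro x
    rw [he', he']
    have g01 := h3 x 0 1
    have g10 := h3 x 1 0
    have g12 := h3 x 1 2
    have g21 := h3 x 2 1
    have g02 := h3 x 0 2
    have g20 := h3 x 2 0
    rw [d0, d1] at g01 g10
    rw [d1, d2] at g12 g21
    rw [d0, d2] at g02 g20
    refine localInv a b (e 0 x) (e 1 (x + (1, 0))) (e 2 (x + (0, 1))) (decide (U 0 x))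
      (decide (U 1 (x + (1, 0)))) (decide (U 2 (x + (0, 1)))) hab (hg.2 x).1 (hg.2 x).2.1
      (hg.2 x).2.2 ?_ ?_ ?_ ?_ ?_ ?_ ?_ ?_ ?_ <;>
      simp only [decide_eq_true_eq]
    · exact h1 0 x
    · exact h1 1 _
    · exact h1 2 _
    · exact g01
    · exact g02
    · exact g10
    · exact g12
    · exact g20
    · exact g21
  have sh : ∀ (F : Pt n → ZMod 2) (d : Pt n), ∑ x, F (x + d) = ∑ x, F x := by
    intro F d
    exact Fintype.sum_equiv (Equiv.addRight d) _ _ (fun x => rfl)
  have two : ∀ z : ZMod 2, z + z = 0 := by decide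
  unfold Inv
  simp only [hA, hB, Finset.sum_add_distrib]
  rw [sh (χ 1) (1, 0), sh (χ 2) (0, 1)]
  generalize ∑ x, χ 0 x = A0
  generalize ∑ x, χ 1 x = A1
  generalize ∑ x, χ 2 x = A2
  generalize ∑ x : Pt n, neg (e 0 x) (e 1 x) = N1
  generalize ∑ x : Pt n, neg (e 0 x) (e 1 (x + (1, 0))) = N2
  revert A0 A1 A2 N1 N2
  decide

end Pool.Agent.H891R3.Kag
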