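import Pool.Agent.H411R2.WSK.Kempe

/-!
# MP_11305c_co Q2: the WSK dynamics for 3 colours on the periodic kagome lattice is ergodic iff n = 2

Colourings of the kagome lattice are functions `e : Fin 3 → Pt n → Fin 3`: `e t x` is the colour of
the honeycomb edge from `(x, A)` to `(x - dd t, B)`, so the edges at `(y, B)` are
`(0, y), (1, y + (1,0)), (2, y + (0,1))`.
-/

set_option autoImplicit false

namespace Pool.Agent.H891R3.Kag

open Pool.Agent.H411R2.WSK

abbrev Pt (n : ℕ) := ZMod n × ZMod n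

def dd (n : ℕ) : Fin 3 → Pt n := ![0, (1, 0), (0, 1)]

/-- proper colourings -/
def Good (n : ℕ) (e : Fin 3 → Pt n → Fin 3) : Prop :=
  (∀ x, e 0 x ≠ e 1 x ∧ e 1 x ≠ e 2 x ∧ e 0 x ≠ e 2 x) ∧
  (∀ x, e 0 x ≠ e 1 (x + (1, 0)) ∧ e 1 (x + (1, 0)) ≠ e 2 (x + (0, 1)) ∧ e 0 x ≠ e 2 (x + (0, 1)))

/-- `1` for a negatively oriented vertex -/
def neg (a b : Fin 3) : ZMod 2 := if b = a + 1 then 0 else 1

/-- parity of the number of negatively oriented vertices of the honeycomb -/
def Inv (n : ℕ) [NeZero n] (e : Fin 3 → Pt n → Fin 3) : ZMod 2 :=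
  ∑ x : Pt n, (neg (e 0 x) (e 1 x) + neg (e 0 x) (e 1 (x + (1, 0))))

/-- a swap of two colours on a union of Kempe chains -/
def Swp (n : ℕ) (e e' : Fin 3 → Pt n → Fin 3) : Prop :=
  ∃ a b : Fin 3, a ≠ b ∧ ∃ U : Fin 3 → Pt n → Prop,
    (∀ t x, U t x → e t x = a ∨ e t x = b) ∧
    (∀ x s t, U s x → (e t x = a ∨ e t x = b) → U t x) ∧
    (∀ x s t, U s (x + dd n s) → (e t (x + dd n t) = a ∨ e t (x + dd n t) = b) →
      U t (x + dd n t)) ∧
    (∀ t x, U t x → e' t x = Equiv.swap a b (e t x)) ∧ (∀ t x, ¬ U t x → e' t x = e t x)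

/-- the columnar colouring -/
def col0 (n : ℕ) : Fin 3 → Pt n → Fin 3 := fun t _ => t

/-- the parity is invariant -/
def TaskInv : Prop := ∀ (n : ℕ) [NeZero n] (e e' : Fin 3 → Pt n → Fin 3), Good n e → Swp n e e' →
  Inv n e' = Inv n e

/-- for `n ≥ 4` there is a colouring of odd parity (explicit, see the task) -/
def TaskTwo : Prop := ∀ (n : ℕ) [NeZero n], 4 ≤ n → ∃ e, Good n e ∧ Inv n e = 1

/-- for `n = 2` every colouring is joined to the columnar one -/
def TaskErg : Prop := ∀ e, Good 2 e → Relation.ReflTransGen (Swp 2) e (col0 2)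

/-- translation to the kagome lattice -/
def TaskLine : Prop := ∀ n : ℕ, 2 ≤ n →
  ∃ f : (kagome n).Coloring (Fin 3) → (Fin 3 → Pt n → Fin 3),
    (∀ c, Good n (f c)) ∧ (∀ e, Good n e → ∃ c, f c = e) ∧
    (∀ c c', KempeStep c c' → Swp n (f c) (f c')) ∧
    (∀ c c', Swp n (f c) (f c') → Relation.ReflTransGen KempeStep c c')

theorem swp_symm {n : ℕ} {e e' : Fin 3 → Pt n → Fin 3} (h : Swp n e e') : Swp n e' e := by
  obtain ⟨a, b, hab, U, h1, h2, h3, h4, h5⟩ := h
  have hm : ∀ t x, (e' t x = a ∨ e' t x = b) → (e t x = a ∨ e t x = b) := by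
    intro t x h
    by_cases hU : U t x
    · exact h1 t x hU
    · rw [h5 t x hU] at h; exact h
  refine ⟨a, b, hab, U, ?_, ?_, ?_, ?_, ?_⟩
  · intro t x hU
    rw [h4 t x hU]
    exact swap_mem (h1 t x hU)
  · intro x s t hU h
    exact h2 x s t hU (hm _ _ h)
  · intro x s t hU h
    exact h3 x s t hU (hm _ _ h)
  · intro t x hU
    rw [h4 t x hU, Equiv.swap_apply_self]
  · intro t x hU
    rw [h5 t x hU]

theorem good_swp {n : ℕ} {e e' : Fin 3 → Pt n → Fin 3} (hg : Good n e) (h : Swp n e e') :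
    Good n e' := by
  obtain ⟨a, b, hab, U, h1, h2, h3, h4, h5⟩ := h
  have key : ∀ (s t : Fin 3) (x y : Pt n), e s x ≠ e t y →
      (U s x → (e t y = a ∨ e t y = b) → U t y) → (U t y → (e s x = a ∨ e s x = b) → U s x) →
      e' s x ≠ e' t y := by
    intro s t x y hne hst hts
    by_cases hx : U s x <;> by_cases hy : U t y
    · rw [h4 _ _ hx, h4 _ _ hy]
      exact fun h => hne ((Equiv.swap a b).injective h)
    · rw [h4 _ _ hx, h5 _ _ hy]
      intro h
      apply hy
      apply hst hx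
      rw [← h]
      exact swap_mem (h1 _ _ hx)
    · rw [h5 _ _ hx, h4 _ _ hy]
      intro h
      apply hx
      apply hts hy
      rw [h]
      exact swap_mem (h1 _ _ hy)
    · rw [h5 _ _ hx, h5 _ _ hy]
      exact hne
  have d0 : ∀ x : Pt n, x + dd n 0 = x := by intro x; simp [dd]
  have d1 : ∀ x : Pt n, x + dd n 1 = x + (1, 0) := by intro x; simp [dd]
  have d2 : ∀ x : Pt n, x + dd n 2 = x + (0, 1) := by intro x; simp [dd]
  refine ⟨fun x => ⟨key _ _ _ _ (hg.1 x).1 (h2 x 0 1) (h2 x 1 0),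
    key _ _ _ _ (hg.1 x).2.1 (h2 x 1 2) (h2 x 2 1),
    key _ _ _ _ (hg.1 x).2.2 (h2 x 0 2) (h2 x 2 0)⟩, fun x => ?_⟩
  have g01 := h3 x 0 1
  have g10 := h3 x 1 0
  have g12 := h3 x 1 2
  have g21 := h3 x 2 1
  have g02 := h3 x 0 2
  have g20 := h3 x 2 0
  rw [d0, d1] at g01 g10
  rw [d1, d2] at g12 g21
  rw [d0, d2] at g02 g20
  exact ⟨key _ _ _ _ (hg.2 x).1 g01 g10, key _ _ _ _ (hg.2 x).2.1 g12 g21,
    key _ _ _ _ (hg.2 x).2.2 g02 g20⟩

theorem good_col0 (n : ℕ) : Good n (col0 n) := by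
  constructor <;> intro x <;> simp only [col0] <;> decide

theorem inv_col0 (n : ℕ) [NeZero n] : Inv n (col0 n) = 0 := by
  simp [Inv, col0, neg]

theorem good3 : ∃ e, Good 3 e ∧ Inv 3 e = 1 := by
  refine ⟨fun t x => (show Fin 3 from (x.1 - x.2 : ZMod 3)) + t, ?_, ?_⟩
  · constructor <;> decide
  · decide

theorem final (hI : TaskInv) (hT : TaskTwo) (hE : TaskErg) (hL : TaskLine) (n : ℕ) (hn : 2 ≤ n) :
    WSKErgodic (kagome n) 3 ↔ n = 2 := by
  obtain ⟨f, f1, f2, f3, f4⟩ := hL n hn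
  have : NeZero n := ⟨by omega⟩
  constructor
  · intro herg
    by_contra hne
    have hodd : ∃ e, Good n e ∧ Inv n e = 1 := by
      rcases Nat.lt_or_ge n 4 with h | h
      · have h3 : n = 3 := by omega
        subst h3
        exact good3
      · exact hT n h
    obtain ⟨e, he, hie⟩ := hodd
    obtain ⟨c, rfl⟩ := f2 e he
    obtain ⟨c0, hc0⟩ := f2 (col0 n) (good_col0 n)
    have key : ∀ c', Relation.ReflTransGen KempeStep c c' → Inv n (f c') = Inv n (f c) := by
      intro c' h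
      induction h with
      | refl => rfl
      | tail _ hs ih => rw [hI n _ _ (f1 _) (f3 _ _ hs), ih]
    have h1 := key c0 (herg c c0)
    rw [hc0, inv_col0, hie] at h1
    exact absurd h1 (by decide)
  · rintro rfl
    intro c c'
    have lift : ∀ e e', Relation.ReflTransGen (Swp 2) e e' → ∀ c c', f c = e → f c' = e' →
        Good 2 e → Relation.ReflTransGen KempeStep c c' := by
      intro e e' h
      induction h using Relation.ReflTransGen.head_induction_on with
      | refl =>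
        intro c c' h1 h2 _
        apply f4
        refine ⟨0, 1, by decide, fun _ _ => False, by simp, by simp, by simp, by simp, ?_⟩
        intro t x _
        rw [h1, h2]
      | @head e1 e2 hs _ ih =>
        intro c c' h1 h2 hg
        have hg2 := good_swp hg hs
        obtain ⟨c2, hc2⟩ := f2 e2 hg2
        exact (f4 c c2 (by rw [h1, hc2]; exact hs)).trans (ih c2 c' hc2 h2 hg2)
    have symm : ∀ e e', Relation.ReflTransGen (Swp 2) e e' →
        Relation.ReflTransGen (Swp 2) e' e := by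
      intro e e' h
      induction h with
      | refl => exact Relation.ReflTransGen.refl
      | tail _ hs ih => exact Relation.ReflTransGen.head (swp_symm hs) ih
    exact lift _ _ ((hE _ (f1 c)).trans (symm _ _ (hE _ (f1 c')))) c c' rfl rfl (f1 c)

end Pool.Agent.H891R3.Kag
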