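import Pool.Agent.H891R3.Kag.Stmts

set_option autoImplicit false
set_option maxHeartbeats 4000000

namespace Pool.Agent.H891R3.Kag

/-- the three colours at a vertex -/
def st (n i j : ℕ) : Fin 3 → Fin 3 :=
  if i = 0 ∧ j = 1 then ![2, 0, 1] else
  if i = 1 ∧ j = 0 then ![1, 2, 0] else
  if i = 2 ∧ j = 0 then ![2, 0, 1] else
  if i = 2 ∧ j = 1 then ![1, 2, 0] else
  if j = 1 then ![1, 0, 2] else
  if i = 1 then ![2, 1, 0] else
  if i + j = 2 ∨ i + j = n + 2 then ![0, 2, 1] else ![0, 1, 2]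

/-- next index, cyclically -/
def nx (n i : ℕ) : ℕ := if i + 1 = n then 0 else i + 1

/-- the diagonal -/
def Dg (n i j : ℕ) : ZMod 2 := if i + j = 2 ∨ i + j = n + 2 then 1 else 0

/-- indicator of a point -/
def pt (a b i j : ℕ) : ZMod 2 := if i = a ∧ j = b then 1 else 0

theorem st_A (n i j : ℕ) : st n i j 0 ≠ st n i j 1 ∧ st n i j 1 ≠ st n i j 2 ∧
    st n i j 0 ≠ st n i j 2 := by
  unfold st
  split_ifs <;> decide

theorem nx_cases (n i : ℕ) (hi : i < n) : ∃ i', nx n i = i' ∧ (i + 1 = n ∧ i' = 0 ∨ i + 1 < n ∧ i' = i + 1) := by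
  unfold nx
  split_ifs with h
  · exact ⟨0, rfl, Or.inl ⟨h, rfl⟩⟩
  · exact ⟨i + 1, rfl, Or.inr ⟨by omega, rfl⟩⟩

theorem st_B (n i j : ℕ) (hn : 4 ≤ n) (hi : i < n) (hj : j < n) :
    st n i j 0 ≠ st n (nx n i) j 1 := by
  obtain ⟨i', h1, h2⟩ := nx_cases n i hi
  rw [h1]
  unfold st
  split_ifs <;> first | decide | (exfalso; omega)

theorem st_C (n i j : ℕ) (hn : 4 ≤ n) (hi : i < n) (hj : j < n) :
    st n (nx n i) j 1 ≠ st n i (nx n j) 2 := by
  obtain ⟨i', h1, h2⟩ := nx_cases n i hi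
  obtain ⟨j', h3, h4⟩ := nx_cases n j hj
  rw [h1, h3]
  unfold st
  split_ifs <;> first | decide | (exfalso; omega)

theorem st_D (n i j : ℕ) (hn : 4 ≤ n) (hi : i < n) (hj : j < n) :
    st n i j 0 ≠ st n i (nx n j) 2 := by
  obtain ⟨j', h3, h4⟩ := nx_cases n j hj
  rw [h3]
  unfold st
  split_ifs <;> first | decide | (exfalso; omega)

theorem st_E (n i j : ℕ) (hn : 4 ≤ n) (hi : i < n) (hj : j < n) :
    neg (st n i j 0) (st n i j 1) + neg (st n i j 0) (st n (nx n i) j 1) =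
      Dg n i j + Dg n (nx n i) j + (pt 0 1 i j + pt 2 1 i j + pt 0 0 i j) := by
  obtain ⟨i', h1, h2⟩ := nx_cases n i hi
  rw [h1]
  unfold st Dg pt
  split_ifs <;> first | decide | (exfalso; omega)

theorem val_succ (n : ℕ) [NeZero n] (hn : 2 ≤ n) (a : ZMod n) : (a + 1).val = nx n a.val := by
  have h1 : (1 : ZMod n).val = 1 := by
    have : Fact (1 < n) := ⟨by omega⟩
    exact ZMod.val_one n
  have ha := ZMod.val_lt a
  rw [ZMod.val_add, h1]
  unfold nx
  split_ifs with h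
  · rw [h, Nat.mod_self]
  · exact Nat.mod_eq_of_lt (by omega)

theorem sum_pt (n : ℕ) [NeZero n] (a b : ℕ) (ha : a < n) (hb : b < n) :
    ∑ x : Pt n, pt a b x.1.val x.2.val = 1 := by
  rw [Finset.sum_eq_single ((a : ZMod n), (b : ZMod n))]
  · simp [pt, ZMod.val_natCast_of_lt ha, ZMod.val_natCast_of_lt hb]
  · rintro ⟨x, y⟩ _ hne
    unfold pt
    refine if_neg ?_
    rintro ⟨h1, h2⟩
    apply hne
    simp only at h1 h2
    rw [← h1, ← h2, ZMod.natCast_zmod_val, ZMod.natCast_zmod_val]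
  · intro h
    exact absurd (Finset.mem_univ _) h

theorem taskTwo : TaskTwo := by
  intro n _ hn
  have s1 : ∀ x : Pt n, (x + (1, 0)).1.val = nx n x.1.val ∧ (x + (1, 0)).2.val = x.2.val := by
    rintro ⟨x, y⟩
    exact ⟨val_succ n (by omega) x, by simp⟩
  have s2 : ∀ x : Pt n, (x + (0, 1)).1.val = x.1.val ∧ (x + (0, 1)).2.val = nx n x.2.val := by
    rintro ⟨x, y⟩
    exact ⟨by simp, val_succ n (by omega) y⟩
  refine ⟨fun t x => st n x.1.val x.2.val t, ⟨fun x => st_A n _ _, fun x => ?_⟩, ?_⟩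
  · have hx := ZMod.val_lt x.1
    have hy := ZMod.val_lt x.2
    show st n x.1.val x.2.val 0 ≠ st n (x + (1, 0)).1.val (x + (1, 0)).2.val 1 ∧
      st n (x + (1, 0)).1.val (x + (1, 0)).2.val 1 ≠ st n (x + (0, 1)).1.val (x + (0, 1)).2.val 2 ∧
      st n x.1.val x.2.val 0 ≠ st n (x + (0, 1)).1.val (x + (0, 1)).2.val 2
    rw [(s1 x).1, (s1 x).2, (s2 x).1, (s2 x).2]
    exact ⟨st_B n _ _ hn hx hy, st_C n _ _ hn hx hy, st_D n _ _ hn hx hy⟩
  · have h1 : Inv n (fun t x => st n x.1.val x.2.val t) = ∑ x : Pt n,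
        (Dg n x.1.val x.2.val + Dg n (x + (1, 0)).1.val (x + (1, 0)).2.val +
          (pt 0 1 x.1.val x.2.val + pt 2 1 x.1.val x.2.val + pt 0 0 x.1.val x.2.val)) := by
      unfold Inv
      refine Finset.sum_congr rfl fun x _ => ?_
      have hx := ZMod.val_lt x.1
      have hy := ZMod.val_lt x.2
      show neg (st n x.1.val x.2.val 0) (st n x.1.val x.2.val 1) +
        neg (st n x.1.val x.2.val 0) (st n (x + (1, 0)).1.val (x + (1, 0)).2.val 1) = _
      rw [(s1 x).1, (s1 x).2]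
      exact st_E n _ _ hn hx hy
    have h2 : ∑ x : Pt n, Dg n (x + (1, 0)).1.val (x + (1, 0)).2.val =
        ∑ x : Pt n, Dg n x.1.val x.2.val :=
      Equiv.sum_comp (Equiv.addRight ((1, 0) : Pt n)) (fun x => Dg n x.1.val x.2.val)
    rw [h1, Finset.sum_add_distrib, Finset.sum_add_distrib, Finset.sum_add_distrib,
      Finset.sum_add_distrib, h2, sum_pt n 0 1 (by omega) (by omega),
      sum_pt n 2 1 (by omega) (by omega), sum_pt n 0 0 (by omega) (by omega)]
    generalize ∑ x : Pt n, Dg n x.1.val x.2.val = s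
    revert s
    decide

end Pool.Agent.H891R3.Kag
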