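import Pool.Agent.H891R3.Kag.Stmts

set_option autoImplicit false

namespace Pool.Agent.H891R3.Kag

/-- colours of the three edges at the A-vertex `(i, j)` -/
def k0 (n i j : ℕ) : Fin 3 :=
  if i = 0 ∧ j = 1 then 2 else if i = 1 ∧ j = 0 then 1 else if i = 2 ∧ j = 0 then 2 else
  if j = 1 then 1 else if i = 1 then 2 else 0

def k1 (n i j : ℕ) : Fin 3 :=
  if i = 1 ∧ j = 0 then 2 else if i = 2 ∧ j = 0 then 0 else if i = 2 ∧ j = 1 then 2 else
  if j = 1 then 0 else if i = 1 then 1 else if i + j = 2 ∨ i + j = n + 2 then 2 else 1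

def k2 (n i j : ℕ) : Fin 3 :=
  if i = 0 ∧ j = 1 then 1 else if i = 2 ∧ j = 0 then 1 else if i = 2 ∧ j = 1 then 0 else
  if j = 1 then 2 else if i = 1 then 0 else if i + j = 2 ∨ i + j = n + 2 then 1 else 2

/-- successor modulo `n` -/
def su (n i : ℕ) : ℕ := if i + 1 = n then 0 else i + 1

/-- the diagonal -/
def dg (n i j : ℕ) : ZMod 2 := if i + j = 2 ∨ i + j = n + 2 then 1 else 0

theorem properA (n i j : ℕ) : k0 n i j ≠ k1 n i j ∧ k1 n i j ≠ k2 n i j ∧ k0 n i j ≠ k2 n i j := by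
  unfold k0 k1 k2
  split_ifs <;> first | (refine ⟨?_, ?_, ?_⟩ <;> decide) | (exfalso; omega)

theorem su_cases (n i : ℕ) (hi : i < n) : (i + 1 = n ∧ su n i = 0) ∨ (i + 1 < n ∧ su n i = i + 1) := by
  unfold su
  split_ifs with h
  · exact Or.inl ⟨h, rfl⟩
  · exact Or.inr ⟨by omega, rfl⟩

theorem B01 (n i j : ℕ) (hn : 4 ≤ n) (hi : i < n) (hj : j < n) :
    k0 n i j ≠ k1 n (su n i) j := by
  have hj' : j = 0 ∨ j = 1 ∨ (j ≠ 0 ∧ j ≠ 1) := by omega
  rcases su_cases n i hi with ⟨h, hs⟩ | ⟨h, hs⟩ <;> rw [hs] <;> unfold k0 k1 <;>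
    rcases hj' with rfl | rfl | ⟨b0, b1⟩ <;> split_ifs <;> first | (exfalso; omega) | decide | (exfalso; simp_all; done)

theorem B02 (n i j : ℕ) (hn : 4 ≤ n) (hi : i < n) (hj : j < n) :
    k0 n i j ≠ k2 n i (su n j) := by
  rcases su_cases n j hj with ⟨h, hs⟩ | ⟨h, hs⟩ <;> rw [hs] <;> unfold k0 k2 <;>
    split_ifs <;> first | (exfalso; omega) | decide | (exfalso; simp_all; done)

theorem B12 (n i j : ℕ) (hn : 4 ≤ n) (hi : i < n) (hj : j < n) :
    k1 n (su n i) j ≠ k2 n i (su n j) := by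
  rcases su_cases n j hj with ⟨h, hs⟩ | ⟨h, hs⟩ <;>
    rcases su_cases n i hi with ⟨h', hs'⟩ | ⟨h', hs'⟩ <;> rw [hs, hs'] <;> unfold k1 k2 <;>
    split_ifs <;> first | (exfalso; omega) | decide | (exfalso; simp_all; done)

theorem properB (n i j : ℕ) (hn : 4 ≤ n) (hi : i < n) (hj : j < n) :
    k0 n i j ≠ k1 n (su n i) j ∧ k1 n (su n i) j ≠ k2 n i (su n j) ∧
      k0 n i j ≠ k2 n i (su n j) :=
  ⟨B01 n i j hn hi hj, B12 n i j hn hi hj, B02 n i j hn hi hj⟩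

/-- the row and the column -/
def rc (i j : ℕ) : ZMod 2 := (if j = 1 then 1 else 0) + (if i = 1 then 1 else 0)

theorem parA (n i j : ℕ) (hn : 4 ≤ n) (hi : i < n) (hj : j < n) :
    neg (k0 n i j) (k1 n i j) = rc i j + dg n i j + ((if i = 0 ∧ j = 1 then 1 else 0) +
      (if i = 2 ∧ j = 1 then 1 else 0) + (if i = 1 ∧ j = 0 then 1 else 0) +
      (if i = 2 ∧ j = 0 then 1 else 0)) := by
  have hi' : i = 0 ∨ i = 1 ∨ i = 2 ∨ (i ≠ 0 ∧ i ≠ 1 ∧ i ≠ 2) := by omega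
  have hj' : j = 0 ∨ j = 1 ∨ (j ≠ 0 ∧ j ≠ 1) := by omega
  by_cases hd : i + j = 2 ∨ i + j = n + 2
  · rcases hi' with a0 | a0 | a0 | ⟨a0, a1, a2⟩ <;> rcases hj' with b0 | b0 | ⟨b0, b1⟩ <;>
      first
      | (exfalso; omega)
      | (simp only [k0, k1, rc, dg, hd, a0, b0, if_true]; simp_all; done)
      | (simp only [k0, k1, rc, dg, hd, a0, b0, if_true]; simp_all; decide)
      | (simp_all [k0, k1, rc, dg]; done)
      | (simp_all [k0, k1, rc, dg]; decide)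
  · rcases hi' with a0 | a0 | a0 | ⟨a0, a1, a2⟩ <;> rcases hj' with b0 | b0 | ⟨b0, b1⟩ <;>
      first
      | (exfalso; omega)
      | (simp_all [k0, k1, rc, dg]; done)
      | (simp_all [k0, k1, rc, dg]; decide)

theorem parB (n i j : ℕ) (hn : 4 ≤ n) (hi : i < n) (hj : j < n) :
    neg (k0 n i j) (k1 n (su n i) j) = rc i j + dg n (su n i) j +
      ((if i = 1 ∧ j = 0 then 1 else 0) + (if i = 0 ∧ j = 0 then 1 else 0) +
      (if i = 2 ∧ j = 0 then 1 else 0)) := by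
  have hi' : i = 0 ∨ i = 1 ∨ i = 2 ∨ (i ≠ 0 ∧ i ≠ 1 ∧ i ≠ 2) := by omega
  have hj' : j = 0 ∨ j = 1 ∨ (j ≠ 0 ∧ j ≠ 1) := by omega
  rcases su_cases n i hi with ⟨h, hs⟩ | ⟨h, hs⟩ <;> rw [hs]
  · by_cases hd : 0 + j = 2 ∨ 0 + j = n + 2
    · rcases hi' with a0 | a0 | a0 | ⟨a0, a1, a2⟩ <;> rcases hj' with b0 | b0 | ⟨b0, b1⟩ <;>
        first
        | (exfalso; omega)
        | (simp_all [k0, k1, rc, dg]; done)
        | (simp_all [k0, k1, rc, dg]; decide)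
    · rcases hi' with a0 | a0 | a0 | ⟨a0, a1, a2⟩ <;> rcases hj' with b0 | b0 | ⟨b0, b1⟩ <;>
        first
        | (exfalso; omega)
        | (simp_all [k0, k1, rc, dg]; done)
        | (simp_all [k0, k1, rc, dg]; decide)
  · by_cases hd : i + 1 + j = 2 ∨ i + 1 + j = n + 2
    · rcases hi' with a0 | a0 | a0 | ⟨a0, a1, a2⟩ <;> rcases hj' with b0 | b0 | ⟨b0, b1⟩ <;>
        first
        | (exfalso; omega)
        | (simp_all [k0, k1, rc, dg]; done)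
        | (simp_all [k0, k1, rc, dg]; decide)
    · rcases hi' with a0 | a0 | a0 | ⟨a0, a1, a2⟩ <;> rcases hj' with b0 | b0 | ⟨b0, b1⟩ <;>
        first
        | (exfalso; omega)
        | (simp_all [k0, k1, rc, dg]; done)
        | (simp_all [k0, k1, rc, dg]; decide)

end Pool.Agent.H891R3.Kag
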