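import Pool.Agent.H891R3.Kag.Two

set_option autoImplicit false

namespace Pool.Agent.H891R3.Kag

theorem val_su {n : ℕ} [NeZero n] (hn : 2 ≤ n) (a : ZMod n) : (a + 1).val = su n a.val := by
  rw [ZMod.val_add, ZMod.val_one'' (by omega)]
  have h := ZMod.val_lt a
  unfold su
  split_ifs with h1
  · rw [h1, Nat.mod_self]
  · exact Nat.mod_eq_of_lt (by omega)

theorem sum_ind {n : ℕ} [NeZero n] (i j : ℕ) (hi : i < n) (hj : j < n) :
    ∑ x : Pt n, (if x.1.val = i ∧ x.2.val = j then (1 : ZMod 2) else 0) = 1 := by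
  have : ∀ x : Pt n, (x.1.val = i ∧ x.2.val = j) ↔ x = ((i : ZMod n), (j : ZMod n)) := by
    intro x
    rw [Prod.ext_iff]
    constructor
    · rintro ⟨h1, h2⟩
      refine ⟨?_, ?_⟩
      · simp only; rw [← h1, ZMod.natCast_zmod_val]
      · simp only; rw [← h2, ZMod.natCast_zmod_val]
    · rintro ⟨h1, h2⟩
      rw [h1, h2]
      exact ⟨ZMod.val_cast_of_lt hi, ZMod.val_cast_of_lt hj⟩
  simp only [this]
  simp

theorem addaux : ∀ r d d' p q s t u : ZMod 2, (r + d + (p + q + s + t)) + (r + d' + (s + u + t)) =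
    d + d' + p + q + u := by decide

theorem parity (n i j : ℕ) (hn : 4 ≤ n) (hi : i < n) (hj : j < n) :
    neg (k0 n i j) (k1 n i j) + neg (k0 n i j) (k1 n (su n i) j) =
      dg n i j + dg n (su n i) j + (if i = 0 ∧ j = 1 then 1 else 0) +
        (if i = 2 ∧ j = 1 then 1 else 0) + (if i = 0 ∧ j = 0 then 1 else 0) := by
  rw [parA n i j hn hi hj, parB n i j hn hi hj]
  exact addaux _ _ _ _ _ _ _ _

theorem taskTwo : TaskTwo := by
  intro n _ hn
  refine ⟨fun t x => ![k0 n x.1.val x.2.val, k1 n x.1.val x.2.val, k2 n x.1.val x.2.val] t,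
    ⟨?_, ?_⟩, ?_⟩
  · intro x
    exact properA n x.1.val x.2.val
  · intro x
    have h1 : (x + ((1 : ZMod n), (0 : ZMod n))).1.val = su n x.1.val := val_su (by omega) x.1
    have h2 : (x + ((1 : ZMod n), (0 : ZMod n))).2.val = x.2.val := by simp
    have h3 : (x + ((0 : ZMod n), (1 : ZMod n))).1.val = x.1.val := by simp
    have h4 : (x + ((0 : ZMod n), (1 : ZMod n))).2.val = su n x.2.val := val_su (by omega) x.2
    have h := properB n x.1.val x.2.val hn (ZMod.val_lt _) (ZMod.val_lt _)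
    simp only [Matrix.cons_val_zero, Matrix.cons_val_one, Matrix.cons_val, h1, h2, h3, h4]
    exact h
  · have h1 : ∀ x : Pt n, (x + ((1 : ZMod n), (0 : ZMod n))).1.val = su n x.1.val :=
      fun x => val_su (by omega) x.1
    have h2 : ∀ x : Pt n, (x + ((1 : ZMod n), (0 : ZMod n))).2.val = x.2.val := by
      intro x; simp
    have hpt : ∀ x : Pt n, neg (k0 n x.1.val x.2.val) (k1 n x.1.val x.2.val) +
        neg (k0 n x.1.val x.2.val) (k1 n (x + ((1 : ZMod n), (0 : ZMod n))).1.val
          (x + ((1 : ZMod n), (0 : ZMod n))).2.val) =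
        dg n x.1.val x.2.val + dg n (x + ((1 : ZMod n), (0 : ZMod n))).1.val
          (x + ((1 : ZMod n), (0 : ZMod n))).2.val +
          (if x.1.val = 0 ∧ x.2.val = 1 then 1 else 0) +
          (if x.1.val = 2 ∧ x.2.val = 1 then 1 else 0) +
          (if x.1.val = 0 ∧ x.2.val = 0 then 1 else 0) := by
      intro x
      rw [h1, h2]
      exact parity n x.1.val x.2.val hn (ZMod.val_lt _) (ZMod.val_lt _)
    have hsh : ∑ x : Pt n, dg n (x + ((1 : ZMod n), (0 : ZMod n))).1.val
        (x + ((1 : ZMod n), (0 : ZMod n))).2.val = ∑ x : Pt n, dg n x.1.val x.2.val :=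
      Fintype.sum_equiv (Equiv.addRight ((1 : ZMod n), (0 : ZMod n))) _ _ (fun x => rfl)
    unfold Inv
    simp only [Matrix.cons_val_zero, Matrix.cons_val_one, Matrix.cons_val]
    rw [Finset.sum_congr rfl (fun x _ => hpt x)]
    simp only [Finset.sum_add_distrib]
    rw [hsh, sum_ind 0 1 (by omega) (by omega), sum_ind 2 1 (by omega) (by omega),
      sum_ind 0 0 (by omega) (by omega)]
    generalize ∑ x : Pt n, dg n x.1.val x.2.val = A
    revert A
    decide

end Pool.Agent.H891R3.Kag
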